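import Pool.Agent.Work.MP_28b0d6_al.Final

set_option autoImplicit false

open Pool.Agent.Work.MP_28b0d6_al

universe u

/-- There is a two-dimensional simplicial complex `Γ` on six vertices (a regular CW complex) such
that, over every field `K`, the ring `K[sd Γ]` is Cohen-Macaulay, and for every linear system of
parameters `Θ` the Artinian algebra `S/(I_{sd Γ} + (Θ))` fails the weak Lefschetz property. -/
theorem Pool.Agent.Results.MP_28b0d6_al.BarycentricNoWLP.result :
    ∃ Γ : AbstractSimplicialComplex (Fin 6), HasDim Γ 2 ∧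
      ∀ (K : Type u) [Field K], IsCohenMacaulay K (bary Γ) ∧
        ∀ (n : ℕ) (Θ : Fin (n + 1) → MvPolynomial {s : Finset (Fin 6) // s ∈ Γ.faces} K),
          IsLSOP (bary Γ) Θ → ¬ HasWLP (artIdeal (bary Γ) Θ) :=
  ⟨Gam, main⟩
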